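import Pool.Agent.Run7.h269.Tri.Count

set_option autoImplicit false
open Filter Topology Finset

namespace Run7.h269.Tri

/-- everywhere different -/
def Diff (D N : ℕ) (x y : Fin D → Fin N) : Prop := ∀ k, x k ≠ y k

lemma hom_congr {W W' : Type} (e : W ≃ W') (F : W → W → Prop) (F' : W' → W' → Prop)
    (h : ∀ i j, F i j ↔ F' (e i) (e j)) {X : Type} (R : X → X → Prop) :
    hom F R = hom F' R := by
  unfold hom
  rw [← Nat.card_coe_set_eq, ← Nat.card_coe_set_eq]
  apply Nat.card_congr
  refine ⟨fun f => ⟨fun w => f.1 (e.symm w), ?_⟩, fun g => ⟨fun w => g.1 (e w), ?_⟩, ?_, ?_⟩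
  · intro i j hij
    apply f.2
    rw [h]; simpa using hij
  · intro i j hij
    exact g.2 _ _ ((h i j).1 hij)
  · intro f; ext w; simp
  · intro g; ext w; simp

lemma hom_diff {W : Type} (F : W → W → Prop) (D N : ℕ) :
    hom F (Diff D N) = (hom F (fun a b : Fin N => a ≠ b)) ^ D := by
  unfold hom Diff
  rw [← Nat.card_coe_set_eq, ← Nat.card_coe_set_eq]
  have h : Nat.card (Fin D → {f : W → Fin N // ∀ i j, F i j → f i ≠ f j}) =
      Nat.card {f : W → Fin N // ∀ i j, F i j → f i ≠ f j} ^ D := by
    rw [Nat.card_fun, Nat.card_eq_fintype_card (α := Fin D), Fintype.card_fin]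
  refine Eq.trans ?_ h
  apply Nat.card_congr
  refine ⟨fun f k => ⟨fun w => f.1 w k, ?_⟩, fun g => ⟨fun w k => (g k).1 w, ?_⟩, ?_, ?_⟩
  · intro i j hij
    exact f.2 i j hij k
  · intro i j hij k
    exact (g k).2 i j hij
  · intro f; rfl
  · intro g; rfl

lemma card_inj (W : Type) [Fintype W] [DecidableEq W] (N : ℕ) :
    Nat.card {f : W → Fin N // Function.Injective f} = N.descFactorial (Fintype.card W) := by
  classical
  rw [Nat.card_eq_fintype_card,
    ← Fintype.card_congr (Equiv.subtypeInjectiveEquivEmbedding W (Fin N)).symm,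
    Fintype.card_embedding_eq, Fintype.card_fin]

lemma hom_top (w N : ℕ) (F : Fin w → Fin w → Prop) (hF : ∀ i j, F i j ↔ i ≠ j) :
    hom F (fun a b : Fin N => a ≠ b) = N.descFactorial w := by
  have h := card_inj (Fin w) N
  rw [Fintype.card_fin] at h
  rw [← h]
  unfold hom
  rw [← Nat.card_coe_set_eq]
  apply Nat.card_congr
  apply Equiv.subtypeEquivRight
  intro f
  constructor
  · intro hf i j hij
    by_contra hne
    exact hf i j ((hF i j).2 hne) hij
  · intro hf i j hij hh
    exact (hF i j).1 hij (hf hh)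

lemma hom_bip (s t N : ℕ) :
    hom (completeBipartiteGraph (Fin s) (Fin t)).Adj (fun a b : Fin N => a ≠ b) =
      ∑ c : Fin s → Fin N, (N - (univ.image c).card) ^ t := by
  classical
  unfold hom
  rw [← Nat.card_coe_set_eq]
  have e : {f : Fin s ⊕ Fin t → Fin N | ∀ i j,
      (completeBipartiteGraph (Fin s) (Fin t)).Adj i j → f i ≠ f j} ≃
      (Σ c : Fin s → Fin N, (Fin t → {x : Fin N // x ∉ univ.image c})) := by
    refine ⟨fun f => ⟨fun i => f.1 (Sum.inl i), fun j => ⟨f.1 (Sum.inr j), ?_⟩⟩,
      fun g => ⟨Sum.elim g.1 (fun j => (g.2 j).1), ?_⟩, ?_, ?_⟩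
    · intro hmem
      rw [Finset.mem_image] at hmem
      obtain ⟨i, _, hi⟩ := hmem
      exact f.2 (Sum.inl i) (Sum.inr j) (by simp [completeBipartiteGraph]) hi
    · rintro (i | i) (j | j) hij
      · simp [completeBipartiteGraph] at hij
      · intro h
        simp only [Sum.elim_inl, Sum.elim_inr] at h
        apply (g.2 j).2
        rw [← h]
        exact Finset.mem_image_of_mem _ (Finset.mem_univ _)
      · intro h
        simp only [Sum.elim_inl, Sum.elim_inr] at h
        apply (g.2 i).2
        rw [h]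
        exact Finset.mem_image_of_mem _ (Finset.mem_univ _)
      · simp [completeBipartiteGraph] at hij
    · intro f
      apply Subtype.ext
      funext w
      rcases w with i | j <;> rfl
    · intro g
      rfl
  rw [Nat.card_congr e, Nat.card_eq_fintype_card, Fintype.card_sigma]
  apply Finset.sum_congr rfl
  intro c _
  rw [Fintype.card_fun, Fintype.card_fin]
  congr 1
  have h5 : Fintype.card {x : Fin N // x ∉ univ.image c} = ((univ.image c)ᶜ).card := by
    rw [Fintype.card_subtype]
    congr 1
    ext x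
    simp
  rw [h5, Finset.card_compl, Fintype.card_fin]

/-- the four-cycle is complete bipartite -/
def e4 : Fin 4 ≃ Fin 2 ⊕ Fin 2 :=
  ⟨fun i => if i = 0 then Sum.inl 0 else if i = 2 then Sum.inl 1 else
      if i = 1 then Sum.inr 0 else Sum.inr 1,
    Sum.elim (fun i => if i = 0 then 0 else 2) (fun i => if i = 0 then 1 else 3),
    by decide, by decide⟩

lemma e4_adj : ∀ i j : Fin 4, (SimpleGraph.cycleGraph 4).Adj i j ↔
    (completeBipartiteGraph (Fin 2) (Fin 2)).Adj (e4 i) (e4 j) := by
  have h : ∀ i j : Fin 4, (SimpleGraph.cycleGraph 4).Adj i j ↔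
    ((e4 i).isLeft ∧ (e4 j).isRight ∨ (e4 i).isRight ∧ (e4 j).isLeft) := by decide
  exact h

lemma hom_four (N : ℕ) :
    hom (SimpleGraph.cycleGraph 4).Adj (fun a b : Fin N => a ≠ b) =
      N * (N - 1) ^ 2 + (N ^ 2 - N) * (N - 2) ^ 2 := by
  classical
  rw [hom_congr e4 (SimpleGraph.cycleGraph 4).Adj (completeBipartiteGraph (Fin 2) (Fin 2)).Adj
    e4_adj, hom_bip]
  have h1 : ∀ c : Fin 2 → Fin N, (N - (univ.image c).card) ^ 2 =
      if c 0 = c 1 then (N - 1) ^ 2 else (N - 2) ^ 2 := by
    intro c
    have hu : (univ : Finset (Fin 2)) = {0, 1} := by decide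
    rw [hu, Finset.image_insert, Finset.image_singleton]
    split_ifs with h
    · rw [h]; simp
    · rw [Finset.card_pair h]
  simp_rw [h1]
  rw [← (finTwoArrowEquiv (Fin N)).symm.sum_comp]
  simp only [finTwoArrowEquiv_symm_apply, Matrix.cons_val_zero, Matrix.cons_val_one]
  rw [Finset.sum_ite, Finset.sum_const, Finset.sum_const]
  have h2 : (univ.filter (fun x : Fin N × Fin N => x.1 = x.2)).card = N := by
    have : (univ.filter (fun x : Fin N × Fin N => x.1 = x.2)) = (univ : Finset (Fin N)).diag := by
      ext ⟨a, b⟩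
      simp [Finset.mem_diag]
    rw [this, Finset.diag_card]; simp
  have h3 : (univ.filter (fun x : Fin N × Fin N => ¬ x.1 = x.2)).card = N ^ 2 - N := by
    have h4 := Finset.card_filter_add_card_filter_not (s := (univ : Finset (Fin N × Fin N)))
      (fun x : Fin N × Fin N => x.1 = x.2)
    rw [h2] at h4
    have h5 : (univ : Finset (Fin N × Fin N)).card = N ^ 2 := by
      simp [sq]
    rw [h5] at h4
    omega
  rw [h2, h3]
  simp

lemma hom_bip_le (s t N : ℕ) (hs : 1 ≤ s) :
    hom (completeBipartiteGraph (Fin s) (Fin t)).Adj (fun a b : Fin N => a ≠ b) ≤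
      N.descFactorial s * (N - s) ^ t + (N ^ s - N.descFactorial s) * (N - 1) ^ t := by
  classical
  rw [hom_bip]
  have h1 : ∀ c : Fin s → Fin N, (N - (univ.image c).card) ^ t ≤
      if Function.Injective c then (N - s) ^ t else (N - 1) ^ t := by
    intro c
    split_ifs with h
    · rw [Finset.card_image_of_injective _ h]
      simp
    · apply Nat.pow_le_pow_left
      have : 1 ≤ (univ.image c).card := by
        rw [Nat.one_le_iff_ne_zero, Finset.card_ne_zero]
        exact ⟨c ⟨0, hs⟩, Finset.mem_image_of_mem _ (Finset.mem_univ _)⟩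
      omega
  refine (Finset.sum_le_sum (fun c _ => h1 c)).trans ?_
  rw [Finset.sum_ite, Finset.sum_const, Finset.sum_const]
  have h2 : (univ.filter (fun c : Fin s → Fin N => Function.Injective c)).card =
      N.descFactorial s := by
    have := card_inj (Fin s) N
    rw [Fintype.card_fin, Nat.card_eq_fintype_card, Fintype.card_subtype] at this
    exact this
  have h3 : (univ.filter (fun c : Fin s → Fin N => ¬ Function.Injective c)).card =
      N ^ s - N.descFactorial s := by
    have h4 := Finset.card_filter_add_card_filter_not (s := (univ : Finset (Fin s → Fin N)))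
      (fun c : Fin s → Fin N => Function.Injective c)
    rw [h2] at h4
    have h5 : (univ : Finset (Fin s → Fin N)).card = N ^ s := by
      simp
    rw [h5] at h4
    omega
  rw [h2, h3]
  simp

end Run7.h269.Tri
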