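import Mathlib

set_option autoImplicit false
open Filter Topology Finset

namespace Run7.h269.Tri

/-- number of injective relation preserving maps -/
noncomputable def emb {W : Type} (F : W → W → Prop) {X : Type} (R : X → X → Prop) : ℕ :=
  Set.ncard {f : W → X | Function.Injective f ∧ ∀ i j, F i j → R (f i) (f j)}

/-- number of relation preserving maps -/
noncomputable def hom {W : Type} (F : W → W → Prop) {X : Type} (R : X → X → Prop) : ℕ :=
  Set.ncard {f : W → X | ∀ i j, F i j → R (f i) (f j)}

section
variable {W : Type} [Fintype W] [DecidableEq W]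

open Classical in
lemma hom_pullback (F : W → W → Prop) {X V : Type} [Fintype X] [Fintype V]
    (R : V → V → Prop) (f : X → V) :
    hom F (fun a b => R (f a) (f b)) =
      ∑ φ ∈ (univ.filter (fun φ : W → V => ∀ i j, F i j → R (φ i) (φ j))),
        ∏ w, (univ.filter (fun x => f x = φ w)).card := by
  unfold hom
  have h1 : ({g : W → X | ∀ i j, F i j → R (f (g i)) (f (g j))}) =
      ((univ.filter (fun g : W → X => ∀ i j, F i j → R (f (g i)) (f (g j))) : Finset (W → X)) :
        Set (W → X)) := by
    ext g; simp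
  rw [h1, Set.ncard_coe_finset]
  rw [Finset.card_eq_sum_card_fiberwise (f := fun g : W → X => f ∘ g)
    (t := (univ.filter (fun φ : W → V => ∀ i j, F i j → R (φ i) (φ j))))]
  · apply Finset.sum_congr rfl
    intro φ hφ
    rw [← Fintype.card_piFinset]
    congr 1
    ext g
    simp only [mem_filter, mem_univ, true_and, Fintype.mem_piFinset] at hφ ⊢
    constructor
    · rintro ⟨_, h⟩ w
      rw [← h]; rfl
    · intro h
      have : f ∘ g = φ := funext h
      refine ⟨?_, this⟩
      intro i j hij
      have h1 := hφ i j hij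
      rw [← this] at h1
      exact h1
  · intro g hg
    simp only [coe_filter, mem_univ, true_and, Set.mem_ofPred_eq, Function.comp] at hg ⊢
    exact hg

lemma emb_le_hom (F : W → W → Prop) {X : Type} [Finite X] (R : X → X → Prop) :
    emb F R ≤ hom F R := by
  unfold emb hom
  apply Set.ncard_le_ncard
  · intro f hf; exact hf.2
  · exact Set.toFinite _

lemma hom_le_emb_add (F : W → W → Prop) (n : ℕ) (R : Fin n → Fin n → Prop) :
    hom F R + n.descFactorial (Fintype.card W) ≤ emb F R + n ^ (Fintype.card W) := by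
  classical
  unfold emb hom
  set A : Set (W → Fin n) := {f | ∀ i j, F i j → R (f i) (f j)} with hA
  set B : Set (W → Fin n) := {f | Function.Injective f} with hB
  have hAB : {f : W → Fin n | Function.Injective f ∧ ∀ i j, F i j → R (f i) (f j)} = A ∩ B := by
    ext f; simp [hA, hB, and_comm]
  rw [hAB]
  have hBc : B.ncard = n.descFactorial (Fintype.card W) := by
    have : B.ncard = Fintype.card {f : W → Fin n // Function.Injective f} := by
      rw [Fintype.card_eq_nat_card]; rfl
    rw [this, ← Fintype.card_congr (Equiv.subtypeInjectiveEquivEmbedding W (Fin n)).symm,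
      Fintype.card_embedding_eq, Fintype.card_fin]
  have huniv : (Set.univ : Set (W → Fin n)).ncard = n ^ (Fintype.card W) := by
    rw [Set.ncard_univ, Nat.card_eq_fintype_card, Fintype.card_fun, Fintype.card_fin]
  rw [← hBc, ← huniv]
  have h := Set.ncard_union_add_ncard_inter A B (Set.toFinite _) (Set.toFinite _)
  have h2 : (A ∪ B).ncard ≤ (Set.univ : Set (W → Fin n)).ncard :=
    Set.ncard_le_ncard (Set.subset_univ _) (Set.toFinite _)
  omega

/-- the periodic map -/
def per {V : Type} (M : ℕ) (hM : 0 < M) (e : Fin M ≃ V) (n : ℕ) (i : Fin n) : V :=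
  e ⟨i.val % M, Nat.mod_lt _ hM⟩

open Classical in
lemma card_fiber {V : Type} (M : ℕ) (hM : 0 < M) (e : Fin M ≃ V) (n : ℕ) (v : V) :
    (univ.filter (fun x : Fin n => per M hM e n x = v)).card =
      n / M + if (e.symm v).val < n % M then 1 else 0 := by
  have h1 : (univ.filter (fun x : Fin n => per M hM e n x = v)).card =
      Nat.count (fun x => x ≡ (e.symm v).val [MOD M]) n := by
    rw [Nat.count_eq_card_filter_range]
    refine Finset.card_bij' (fun x _ => x.val) (fun x hx => ⟨x, ?_⟩) ?_ ?_ ?_ ?_
    · simp only [mem_filter, mem_range] at hx; exact hx.1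
    · intro x hx
      simp only [mem_filter, mem_univ, true_and, per, mem_range] at hx ⊢
      refine ⟨x.2, ?_⟩
      rw [← hx]
      simp [Nat.ModEq]
    · intro x hx
      simp only [mem_filter, mem_range] at hx
      simp only [mem_filter, mem_univ, true_and, per]
      apply e.symm.injective
      rw [Equiv.symm_apply_apply]
      apply Fin.ext
      have := hx.2
      unfold Nat.ModEq at this
      rw [Nat.mod_eq_of_lt (e.symm v).2] at this
      exact this
    · intro x hx; rfl
    · intro x hx; rfl
  rw [h1, Nat.count_modEq_card n hM]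
  rw [Nat.mod_eq_of_lt (e.symm v).2]

open Classical in
lemma tendsto_fiber {V : Type} (M : ℕ) (hM : 0 < M) (e : Fin M ≃ V) (v : V) :
    Tendsto (fun n : ℕ => ((univ.filter (fun x : Fin n => per M hM e n x = v)).card : ℝ) / n)
      atTop (𝓝 (1 / M)) := by
  have hM' : (0 : ℝ) < M := by exact_mod_cast hM
  have hlow : Tendsto (fun n : ℕ => (1 : ℝ) / M - 1 / n) atTop (𝓝 (1 / M)) := by
    have : Tendsto (fun n : ℕ => (1 : ℝ) / M - 1 / (n : ℝ)) atTop (𝓝 (1 / M - 0)) :=
      tendsto_const_nhds.sub tendsto_one_div_atTop_nhds_zero_nat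
    simpa using this
  have hup : Tendsto (fun n : ℕ => (1 : ℝ) / M + 1 / n) atTop (𝓝 (1 / M)) := by
    have : Tendsto (fun n : ℕ => (1 : ℝ) / M + 1 / (n : ℝ)) atTop (𝓝 (1 / M + 0)) :=
      tendsto_const_nhds.add tendsto_one_div_atTop_nhds_zero_nat
    simpa using this
  refine tendsto_of_tendsto_of_tendsto_of_le_of_le' hlow hup ?_ ?_
  · filter_upwards [eventually_gt_atTop 0] with n hn
    have hn' : (0 : ℝ) < n := by exact_mod_cast hn
    rw [card_fiber]
    have h1 : (n : ℝ) / M - 1 ≤ ((n / M : ℕ) : ℝ) := by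
      have h2 : n < (n / M + 1) * M := by
        have := Nat.lt_mul_div_succ n hM
        rw [mul_comm]; exact this
      have h3 : (n : ℝ) < ((n / M : ℕ) + 1) * M := by exact_mod_cast h2
      rw [sub_le_iff_le_add, div_le_iff₀ hM']
      exact h3.le
    rw [le_div_iff₀ hn']
    push_cast
    have h4 : (0 : ℝ) ≤ (if (e.symm v).val < n % M then (1 : ℝ) else 0) := by positivity
    have h5 : (1 / (M : ℝ) - 1 / n) * n = n / M - 1 := by field_simp
    rw [h5]
    linarith
  · filter_upwards [eventually_gt_atTop 0] with n hn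
    have hn' : (0 : ℝ) < n := by exact_mod_cast hn
    rw [card_fiber]
    have h1 : ((n / M : ℕ) : ℝ) ≤ (n : ℝ) / M := Nat.cast_div_le
    rw [div_le_iff₀ hn']
    push_cast
    have h4 : (if (e.symm v).val < n % M then (1 : ℝ) else 0) ≤ 1 := by
      split_ifs <;> norm_num
    have h5 : (1 / (M : ℝ) + 1 / n) * n = n / M + 1 := by field_simp
    rw [h5]
    linarith

lemma tendsto_desc (w : ℕ) :
    Tendsto (fun n : ℕ => (n.descFactorial w : ℝ) / (n : ℝ) ^ w) atTop (𝓝 1) := by
  have h := isEquivalent_descFactorial w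
  have h2 := (Asymptotics.isEquivalent_iff_tendsto_one (by
    filter_upwards [eventually_gt_atTop 0] with n hn
    positivity)).1 h
  exact h2

lemma tendsto_hom (F : W → W → Prop) {V : Type} (R : V → V → Prop)
    (M : ℕ) (hM : 0 < M) (e : Fin M ≃ V) :
    Tendsto (fun n : ℕ => (hom F (fun a b : Fin n => R (per M hM e n a) (per M hM e n b)) : ℝ) /
      (n : ℝ) ^ (Fintype.card W)) atTop (𝓝 ((hom F R : ℝ) / (M : ℝ) ^ (Fintype.card W))) := by
  classical
  haveI : Fintype V := Fintype.ofEquiv _ e
  have h1 : ∀ n : ℕ, (hom F (fun a b : Fin n => R (per M hM e n a) (per M hM e n b)) : ℝ) /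
      (n : ℝ) ^ (Fintype.card W) =
      ∑ φ ∈ (univ.filter (fun φ : W → V => ∀ i j, F i j → R (φ i) (φ j))),
        ∏ w, (((univ.filter (fun x : Fin n => per M hM e n x = φ w)).card : ℝ) / n) := by
    intro n
    rw [hom_pullback F R (per M hM e n)]
    push_cast
    rw [Finset.sum_div]
    apply Finset.sum_congr rfl
    intro φ _
    rw [Finset.prod_div_distrib, Finset.prod_const, Finset.card_univ]
  simp_rw [h1]
  have h2 : ((hom F R : ℝ) / (M : ℝ) ^ (Fintype.card W)) =
      ∑ φ ∈ (univ.filter (fun φ : W → V => ∀ i j, F i j → R (φ i) (φ j))),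
        ∏ w : W, (1 / (M : ℝ)) := by
    rw [Finset.sum_const, Finset.prod_const, Finset.card_univ, nsmul_eq_mul]
    have h3 : hom F R = (univ.filter (fun φ : W → V => ∀ i j, F i j → R (φ i) (φ j))).card := by
      unfold hom
      rw [← Set.ncard_coe_finset]
      congr 1
      ext g; simp
    rw [h3]
    rw [one_div, inv_pow]
    rfl
  rw [h2]
  apply tendsto_finsetSum
  intro φ _
  apply tendsto_finsetProd
  intro w _
  exact tendsto_fiber M hM e (φ w)

lemma tendsto_emb (F : W → W → Prop) {V : Type} (R : V → V → Prop)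
    (M : ℕ) (hM : 0 < M) (e : Fin M ≃ V) (q : ℝ) :
    Tendsto (fun n : ℕ => (emb F (fun a b : Fin n => R (per M hM e n a) (per M hM e n b)) : ℝ) /
      ((n.descFactorial (Fintype.card W) : ℝ) * q)) atTop
      (𝓝 ((hom F R : ℝ) / (M : ℝ) ^ (Fintype.card W) / q)) := by
  classical
  set w := Fintype.card W with hw
  have hh := tendsto_hom F R M hM e
  rw [← hw] at hh
  have hd := tendsto_desc w
  have h1 : Tendsto (fun n : ℕ =>
      (emb F (fun a b : Fin n => R (per M hM e n a) (per M hM e n b)) : ℝ) / (n : ℝ) ^ w) atTop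
      (𝓝 ((hom F R : ℝ) / (M : ℝ) ^ w)) := by
    have hlow : Tendsto (fun n : ℕ =>
        (hom F (fun a b : Fin n => R (per M hM e n a) (per M hM e n b)) : ℝ) / (n : ℝ) ^ w +
        (n.descFactorial w : ℝ) / (n : ℝ) ^ w - 1) atTop (𝓝 ((hom F R : ℝ) / (M : ℝ) ^ w)) := by
      have := (hh.add hd).sub (tendsto_const_nhds (x := (1 : ℝ)))
      simpa using this
    refine tendsto_of_tendsto_of_tendsto_of_le_of_le' hlow hh ?_ ?_
    · filter_upwards [eventually_gt_atTop 0] with n hn
      have hn' : (0 : ℝ) < (n : ℝ) ^ w := by positivity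
      have h2 := hom_le_emb_add F n (fun a b : Fin n => R (per M hM e n a) (per M hM e n b))
      rw [← hw] at h2
      have h3 : (hom F (fun a b : Fin n => R (per M hM e n a) (per M hM e n b)) : ℝ) +
        (n.descFactorial w : ℝ) ≤
        (emb F (fun a b : Fin n => R (per M hM e n a) (per M hM e n b)) : ℝ) + (n : ℝ) ^ w := by
        exact_mod_cast h2
      rw [← add_div, sub_le_iff_le_add, div_le_iff₀ hn', add_mul, div_mul_cancel₀ _ hn'.ne']
      linarith
    · filter_upwards with n
      apply div_le_div_of_nonneg_right _ (by positivity)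
      exact_mod_cast emb_le_hom F (fun a b : Fin n => R (per M hM e n a) (per M hM e n b))
  have h2 := (h1.div hd one_ne_zero).div_const q
  rw [div_one] at h2
  refine h2.congr' ?_
  filter_upwards [eventually_gt_atTop 0] with n hn
  have hn' : (n : ℝ) ^ w ≠ 0 := by positivity
  simp only [Pi.div_apply]
  rw [div_div_div_cancel_right₀ hn', div_div]

end

end Run7.h269.Tri
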