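import Pool.Agent.Run7.h269.Tri.Colour

set_option autoImplicit false
open Filter Topology Finset

namespace Run7.h269.Tri

lemma exists_diag (A : ℕ → ℕ → Prop) (h : ∀ k, ∀ᶠ n in atTop, A k n) :
    ∃ κ : ℕ → ℕ, Tendsto κ atTop atTop ∧ ∀ᶠ n in atTop, A (κ n) n := by
  classical
  have h' : ∀ k, ∃ n0, ∀ n ≥ n0, A k n := fun k => eventually_atTop.1 (h k)
  choose n0 hn0 using h'
  refine ⟨fun n => Nat.findGreatest (fun k => ∀ j ≤ k, n0 j ≤ n) n, ?_, ?_⟩
  · rw [tendsto_atTop]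
    intro K
    have : ∀ᶠ n in atTop, K ≤ n ∧ ∀ j ∈ Finset.range (K + 1), n0 j ≤ n := by
      refine (eventually_ge_atTop K).and ?_
      rw [Filter.eventually_all_finset]
      intro j _
      exact eventually_ge_atTop _
    filter_upwards [this] with n hn
    apply Nat.le_findGreatest hn.1
    intro j hj
    exact hn.2 j (Finset.mem_range.2 (by omega))
  · filter_upwards [eventually_ge_atTop (n0 0)] with n hn
    have hspec := Nat.findGreatest_spec (P := fun k => ∀ j ≤ k, n0 j ≤ n) (n := n) (m := 0)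
      (Nat.zero_le _) (by intro j hj; have : j = 0 := by omega
                          subst this; exact hn)
    exact hn0 _ _ (hspec _ le_rfl)

/-- the edge density -/
noncomputable def q (m : ℕ) : ℝ := ((m : ℝ) / (m + 1)) ^ (m ^ 2)

lemma q_pos (m : ℕ) (hm : 0 < m) : 0 < q m := by
  unfold q
  have : (0 : ℝ) < m := by exact_mod_cast hm
  positivity

lemma q_le (m : ℕ) : q m ≤ 1 := by
  unfold q
  apply pow_le_one₀ (by positivity)
  rw [div_le_one (by positivity)]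
  linarith

lemma L2 (m : ℕ) (hm : 0 < m) (F : Fin 2 → Fin 2 → Prop) (hF : ∀ i j, F i j ↔ i ≠ j) :
    (hom F (Diff (m ^ 2) (m + 1)) : ℝ) / (((m + 1) ^ (m ^ 2) : ℕ) : ℝ) ^ 2 / (q m) ^ 1 = 1 := by
  rw [hom_diff, hom_top 2 (m + 1) F hF]
  have hm' : (0 : ℝ) < m := by exact_mod_cast hm
  have h1 : (((m + 1).descFactorial 2 : ℕ) : ℝ) = (m + 1) * m := by
    have : (m + 1).descFactorial 2 = m * (m + 1) := by
      simp [Nat.descFactorial_succ]
    rw [this]; push_cast; ring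
  push_cast
  rw [h1, pow_one]
  unfold q
  rw [← pow_mul, mul_comm (m ^ 2) 2, pow_mul, ← div_pow, ← div_pow]
  rw [show ((m : ℝ) + 1) * m / (m + 1) ^ 2 / (m / (m + 1)) = 1 by field_simp]
  exact one_pow _

lemma L3 (m : ℕ) (hm : 0 < m) (F : Fin 3 → Fin 3 → Prop) (hF : ∀ i j, F i j ↔ i ≠ j) :
    (hom F (Diff (m ^ 2) (m + 1)) : ℝ) / (((m + 1) ^ (m ^ 2) : ℕ) : ℝ) ^ 3 / (q m) ^ 3 ≤
      Real.exp (-1) := by
  rw [hom_diff, hom_top 3 (m + 1) F hF]
  have hm' : (0 : ℝ) < m := by exact_mod_cast hm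
  have h1 : (((m + 1).descFactorial 3 : ℕ) : ℝ) = (m + 1) * m * (m - 1) := by
    have : (m + 1).descFactorial 3 = (m - 1) * (m * (m + 1)) := by
      simp [Nat.descFactorial_succ]
    rw [this]; push_cast [Nat.cast_sub hm]; ring
  push_cast
  rw [h1]
  unfold q
  rw [← pow_mul, mul_comm (m ^ 2) 3, pow_mul, ← div_pow, ← pow_mul, mul_comm (m ^ 2) 3, pow_mul,
    ← div_pow]
  rw [show ((m : ℝ) + 1) * m * (m - 1) / (m + 1) ^ 3 / (m / (m + 1)) ^ 3 = 1 - 1 / (m : ℝ) ^ 2 by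
    field_simp; ring]
  have h2 : (0 : ℝ) ≤ 1 - 1 / (m : ℝ) ^ 2 := by
    have : 1 / (m : ℝ) ^ 2 ≤ 1 := by
      rw [div_le_one (by positivity)]
      have : (1 : ℝ) ≤ m := by exact_mod_cast hm
      nlinarith
    linarith
  have h3 : 1 - 1 / (m : ℝ) ^ 2 ≤ Real.exp (-(1 / (m : ℝ) ^ 2)) := by
    have := Real.add_one_le_exp (-(1 / (m : ℝ) ^ 2))
    linarith
  calc (1 - 1 / (m : ℝ) ^ 2) ^ (m ^ 2) ≤ (Real.exp (-(1 / (m : ℝ) ^ 2))) ^ (m ^ 2) :=
        pow_le_pow_left₀ h2 h3 _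
    _ = Real.exp (-1) := by
        rw [← Real.exp_nat_mul]
        congr 1
        push_cast
        field_simp

lemma L4 (m : ℕ) (hm : 0 < m) :
    (hom (SimpleGraph.cycleGraph 4).Adj (Diff (m ^ 2) (m + 1)) : ℝ) /
      (((m + 1) ^ (m ^ 2) : ℕ) : ℝ) ^ 4 / (q m) ^ 4 = (1 + 1 / (m : ℝ) ^ 3) ^ (m ^ 2) := by
  rw [hom_diff, hom_four]
  have hm' : (0 : ℝ) < m := by exact_mod_cast hm
  have h1 : (((m + 1) * (m + 1 - 1) ^ 2 + ((m + 1) ^ 2 - (m + 1)) * (m + 1 - 2) ^ 2 : ℕ) : ℝ) =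
      (m + 1) * m ^ 2 + (m + 1) * m * (m - 1) ^ 2 := by
    obtain ⟨k, rfl⟩ : ∃ k, m = k + 1 := ⟨m - 1, by omega⟩
    have e1 : (k + 1 + 1) ^ 2 - (k + 1 + 1) = (k + 2) * (k + 1) := by
      have : (k + 1 + 1) ^ 2 = (k + 2) * (k + 1) + (k + 1 + 1) := by ring
      omega
    rw [e1]
    have e2 : k + 1 + 1 - 2 = k := by omega
    have e3 : k + 1 + 1 - 1 = k + 1 := by omega
    rw [e2, e3]
    push_cast
    ring
  push_cast [h1]
  have h1' := h1
  push_cast at h1'
  unfold q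
  rw [← pow_mul, mul_comm (m ^ 2) 4, pow_mul, ← div_pow, ← pow_mul, mul_comm (m ^ 2) 4, pow_mul,
    ← div_pow]
  congr 1
  rw [h1']
  field_simp
  ring

lemma L4_lim : Tendsto (fun m : ℕ => (1 + 1 / (m : ℝ) ^ 3) ^ (m ^ 2)) atTop (𝓝 1) := by
  have hexp : Tendsto (fun m : ℕ => Real.exp (1 / (m : ℝ))) atTop (𝓝 1) := by
    have := (Real.continuous_exp.tendsto 0).comp tendsto_one_div_atTop_nhds_zero_nat
    rw [Real.exp_zero] at this
    exact this
  refine tendsto_of_tendsto_of_tendsto_of_le_of_le' tendsto_const_nhds hexp ?_ ?_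
  · filter_upwards with m
    apply one_le_pow₀
    have : (0 : ℝ) ≤ 1 / (m : ℝ) ^ 3 := by positivity
    linarith
  · filter_upwards [eventually_gt_atTop 0] with m hm
    have hm' : (0 : ℝ) < m := by exact_mod_cast hm
    have h3 : 1 + 1 / (m : ℝ) ^ 3 ≤ Real.exp (1 / (m : ℝ) ^ 3) := by
      have := Real.add_one_le_exp (1 / (m : ℝ) ^ 3)
      linarith
    calc (1 + 1 / (m : ℝ) ^ 3) ^ (m ^ 2) ≤ (Real.exp (1 / (m : ℝ) ^ 3)) ^ (m ^ 2) :=
          pow_le_pow_left₀ (by positivity) h3 _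
      _ = Real.exp (1 / m) := by
          rw [← Real.exp_nat_mul]
          congr 1
          push_cast
          field_simp

/-- the bound for complete bipartite graphs -/
noncomputable def B (s t : ℕ) : ℝ := Real.exp ((s : ℝ) ^ 3 * t * 2 ^ (s * t) )

lemma Lst (s t m : ℕ) (hs : 1 ≤ s) (hm : 1 ≤ m) (hsm : s ≤ m + 1) :
    (hom (completeBipartiteGraph (Fin s) (Fin t)).Adj (Diff (m ^ 2) (m + 1)) : ℝ) /
      (((m + 1) ^ (m ^ 2) : ℕ) : ℝ) ^ (s + t) / (q m) ^ (s * t) ≤ B s t := by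
  rw [hom_diff]
  have hb := hom_bip_le s t (m + 1) hs
  set H := hom (completeBipartiteGraph (Fin s) (Fin t)).Adj (fun a b : Fin (m + 1) => a ≠ b)
    with hH
  have hm' : (0 : ℝ) < m := by exact_mod_cast hm
  set N : ℝ := (m : ℝ) + 1 with hN
  have hNpos : 0 < N := by positivity
  have hN1 : (1 : ℝ) ≤ N := by rw [hN]; linarith
  have hdle : (m + 1).descFactorial s ≤ (m + 1) ^ s := Nat.descFactorial_le_pow _ _
  -- real form of the bound
  have hb' : (H : ℝ) ≤ ((m + 1).descFactorial s : ℝ) * (N - s) ^ t +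
      (N ^ s - ((m + 1).descFactorial s : ℝ)) * m ^ t := by
    have : (H : ℝ) ≤ (((m + 1).descFactorial s * (m + 1 - s) ^ t +
      ((m + 1) ^ s - (m + 1).descFactorial s) * (m + 1 - 1) ^ t : ℕ) : ℝ) := by
      exact_mod_cast hb
    rw [Nat.cast_add, Nat.cast_mul, Nat.cast_mul, Nat.cast_sub hdle, Nat.cast_pow, Nat.cast_pow,
      Nat.cast_pow, Nat.cast_sub hsm, Nat.cast_sub (by omega)] at this
    push_cast at this
    rw [← hN] at this
    have h9 : N - 1 = m := by rw [hN]; ring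
    rw [h9] at this
    exact this
  set d : ℝ := ((m + 1).descFactorial s : ℝ) / N ^ s with hd
  set A : ℝ := (1 - s / N) ^ t with hA
  set Bq : ℝ := (m / N) ^ t with hBq
  have hsN : (s : ℝ) ≤ N := by rw [hN]; exact_mod_cast hsm
  have hx0 : 0 ≤ 1 - (s : ℝ) / N := by
    rw [sub_nonneg, div_le_one hNpos]; exact hsN
  have hratio : (H : ℝ) / N ^ (s + t) ≤ d * A + (1 - d) * Bq := by
    rw [div_le_iff₀ (by positivity)]
    refine hb'.trans (le_of_eq ?_)
    rw [hd, hA, hBq, pow_add]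
    have e1 : (1 - (s : ℝ) / N) ^ t * N ^ t = (N - s) ^ t := by
      rw [← mul_pow]; congr 1; field_simp
    have e2 : ((m : ℝ) / N) ^ t * N ^ t = m ^ t := by
      rw [← mul_pow]; congr 1; field_simp
    rw [← e1, ← e2]
    field_simp
  have hd1 : d ≤ 1 := by
    rw [hd, div_le_one (by positivity)]
    have : ((m + 1).descFactorial s : ℝ) ≤ ((m + 1 : ℕ) : ℝ) ^ s := by exact_mod_cast hdle
    push_cast at this
    exact this
  have hd2 : 1 - d ≤ (s : ℝ) ^ 2 / N := by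
    have h1 : ((m + 1 + 1 - s) ^ s : ℕ) ≤ (m + 1).descFactorial s :=
      Nat.pow_sub_le_descFactorial (m + 1) s
    have h2 : ((N + 1 - s) ^ s : ℝ) ≤ ((m + 1).descFactorial s : ℝ) := by
      have : (((m + 1 + 1 - s) ^ s : ℕ) : ℝ) ≤ ((m + 1).descFactorial s : ℝ) := by
        exact_mod_cast h1
      rw [Nat.cast_pow, Nat.cast_sub (by omega)] at this
      push_cast at this
      rw [← hN] at this
      exact this
    have h3 : (1 - (s : ℝ) / N) ^ s ≤ d := by
      rw [hd, le_div_iff₀ (by positivity), ← mul_pow]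
      refine le_trans ?_ h2
      apply pow_le_pow_left₀ (by positivity)
      rw [sub_mul, div_mul_cancel₀ _ hNpos.ne']
      linarith
    have h4 : 1 - (s : ℝ) * (s / N) ≤ (1 - (s : ℝ) / N) ^ s := by
      have := one_add_mul_le_pow (a := -((s : ℝ) / N)) (by linarith) s
      have e : (1 : ℝ) + -(s / N) = 1 - s / N := by ring
      rw [e] at this
      linarith
    have h5 : (s : ℝ) * (s / N) = s ^ 2 / N := by ring
    rw [h5] at h4
    linarith
  have hA1 : 1 - A ≤ (t : ℝ) * s / N := by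
    have := one_add_mul_le_pow (a := -((s : ℝ) / N)) (by linarith) t
    have e : (1 : ℝ) + -(s / N) = 1 - s / N := by ring
    rw [e] at this
    have e2 : (t : ℝ) * -(s / N) = -(t * s / N) := by ring
    rw [e2] at this
    rw [hA]; linarith
  have hBq1 : Bq ≤ 1 := by
    rw [hBq]
    apply pow_le_one₀ (by positivity)
    rw [div_le_one hNpos, hN]; linarith
  have hA0 : 0 ≤ A := by rw [hA]; positivity
  have h6 : (H : ℝ) / N ^ (s + t) ≤ A + (s : ℝ) ^ 3 * t / N ^ 2 := by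
    refine hratio.trans ?_
    have h7 : d * A + (1 - d) * Bq = A + (1 - d) * (Bq - A) := by ring
    rw [h7]
    have h8 : (1 - d) * (Bq - A) ≤ (s : ℝ) ^ 2 / N * (t * s / N) := by
      have h9 : Bq - A ≤ (t : ℝ) * s / N := by linarith
      calc (1 - d) * (Bq - A) ≤ (1 - d) * (t * s / N) :=
            mul_le_mul_of_nonneg_left h9 (by linarith)
        _ ≤ (s : ℝ) ^ 2 / N * (t * s / N) :=
            mul_le_mul_of_nonneg_right hd2 (by positivity)
    have h10 : (s : ℝ) ^ 2 / N * (t * s / N) = (s : ℝ) ^ 3 * t / N ^ 2 := by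
      field_simp
    linarith
  have hA2 : A ≤ (m / N) ^ (s * t) := by
    rw [hA, pow_mul]
    apply pow_le_pow_left₀ hx0
    have := one_add_mul_le_pow (a := -(1 / N)) (by
      have : 1 / N ≤ 1 := by rw [div_le_one hNpos]; exact hN1
      linarith) s
    have e : (1 : ℝ) + -(1 / N) = m / N := by rw [hN]; field_simp; ring
    rw [e] at this
    have e2 : (s : ℝ) * -(1 / N) = -(s / N) := by ring
    rw [e2] at this
    linarith
  have hhalf : ((1 : ℝ) / 2) ^ (s * t) ≤ (m / N) ^ (s * t) := by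
    apply pow_le_pow_left₀ (by norm_num)
    rw [div_le_div_iff₀ (by norm_num) hNpos, hN]
    have : (1 : ℝ) ≤ m := by exact_mod_cast hm
    linarith
  have hqpos : (0 : ℝ) < (m / N) ^ (s * t) := by positivity
  have h11 : (H : ℝ) / N ^ (s + t) / (m / N) ^ (s * t) ≤ 1 + (s : ℝ) ^ 3 * t * 2 ^ (s * t) / N ^ 2 := by
    rw [div_le_iff₀ hqpos]
    refine h6.trans ?_
    rw [add_mul, one_mul]
    apply add_le_add hA2
    have h12 : (1 : ℝ) ≤ 2 ^ (s * t) * (m / N) ^ (s * t) := by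
      have : (1 : ℝ) = 2 ^ (s * t) * (1 / 2) ^ (s * t) := by
        rw [← mul_pow]; norm_num
      calc (1 : ℝ) = 2 ^ (s * t) * (1 / 2) ^ (s * t) := this
        _ ≤ 2 ^ (s * t) * (m / N) ^ (s * t) := mul_le_mul_of_nonneg_left hhalf (by positivity)
    have h13 : (s : ℝ) ^ 3 * t * 2 ^ (s * t) / N ^ 2 * (m / N) ^ (s * t) =
        (s : ℝ) ^ 3 * t / N ^ 2 * (2 ^ (s * t) * (m / N) ^ (s * t)) := by ring
    rw [h13]
    exact le_mul_of_one_le_right (by positivity) h12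
  -- now the power
  have h14 : (((H ^ m ^ 2 : ℕ) : ℝ)) / (((m + 1) ^ (m ^ 2) : ℕ) : ℝ) ^ (s + t) / (q m) ^ (s * t) =
      ((H : ℝ) / N ^ (s + t) / (m / N) ^ (s * t)) ^ (m ^ 2) := by
    unfold q
    push_cast
    rw [← hN]
    generalize (m : ℝ) / N = y
    rw [div_pow, div_pow, pow_right_comm N (s + t) (m ^ 2), pow_right_comm y (s * t) (m ^ 2)]
  rw [h14]
  have h15 : (0 : ℝ) ≤ (H : ℝ) / N ^ (s + t) / (m / N) ^ (s * t) := by positivity
  set C : ℝ := (s : ℝ) ^ 3 * t * 2 ^ (s * t) with hC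
  have hC0 : 0 ≤ C := by positivity
  calc ((H : ℝ) / N ^ (s + t) / (m / N) ^ (s * t)) ^ (m ^ 2)
      ≤ (Real.exp (C / N ^ 2)) ^ (m ^ 2) := by
        apply pow_le_pow_left₀ h15
        refine h11.trans ?_
        have := Real.add_one_le_exp (C / N ^ 2)
        linarith
    _ = Real.exp (((m ^ 2 : ℕ) : ℝ) * (C / N ^ 2)) := by rw [← Real.exp_nat_mul]
    _ ≤ B s t := by
        unfold B
        apply Real.exp_le_exp.2
        rw [← hC]
        push_cast
        have : (m : ℝ) ^ 2 * (C / N ^ 2) = C * (m ^ 2 / N ^ 2) := by ring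
        rw [this]
        apply mul_le_of_le_one_right hC0
        rw [div_le_one (by positivity)]
        apply pow_le_pow_left₀ hm'.le
        rw [hN]; linarith

end Run7.h269.Tri
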