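import Pool.Agent.Run7.h269.Tri.Limits

set_option autoImplicit false
open Filter Topology Finset

namespace Run7.h269.Tri

/-- the graph on `Fin n` -/
def Gr (m : ℕ) (hm : 0 < m) (n : ℕ) : SimpleGraph (Fin n) where
  Adj a b := Diff (m ^ 2) (m + 1)
    (per ((m + 1) ^ (m ^ 2)) (by positivity) finFunctionFinEquiv.symm n a)
    (per ((m + 1) ^ (m ^ 2)) (by positivity) finFunctionFinEquiv.symm n b)
  symm := ⟨fun a b h k hk => h k hk.symm⟩
  loopless := ⟨fun a h => h ⟨0, by positivity⟩ rfl⟩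

lemma emb_lim {W : Type} [Fintype W] [DecidableEq W] (F : W → W → Prop) (m : ℕ) (hm : 0 < m)
    (c : ℝ) :
    Tendsto (fun n : ℕ => (emb F (Gr m hm n).Adj : ℝ) /
      ((n.descFactorial (Fintype.card W) : ℝ) * c)) atTop
      (𝓝 ((hom F (Diff (m ^ 2) (m + 1)) : ℝ) /
        (((m + 1) ^ (m ^ 2) : ℕ) : ℝ) ^ (Fintype.card W) / c)) :=
  tendsto_emb F (Diff (m ^ 2) (m + 1)) ((m + 1) ^ (m ^ 2)) (by positivity)
    finFunctionFinEquiv.symm c

lemma growth (s : ℕ) (hs : 2 ≤ s) (a : ℝ) (c : ℝ) (hc : 0 < c) (K : ℝ) (hK : 0 < K) :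
    ∀ᶠ n : ℕ in atTop, K ≤ c / ((Real.log n) ^ a * (n : ℝ) ^ (-(1 / (s : ℝ)))) := by
  have hs' : (0 : ℝ) < 1 / (s : ℝ) := by
    have : (0 : ℝ) < s := by exact_mod_cast (by omega : 0 < s)
    positivity
  have h := (isLittleO_log_rpow_rpow_atTop a hs').def (c := c / K) (by positivity)
  have h2 := tendsto_natCast_atTop_atTop (R := ℝ) |>.eventually h
  filter_upwards [h2, eventually_gt_atTop 1] with n hn hn1
  have hn' : (1 : ℝ) < n := by exact_mod_cast hn1
  have hn0 : (0 : ℝ) < n := by linarith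
  have hlog : 0 < Real.log n := Real.log_pos hn'
  have hlp : 0 < (Real.log n) ^ a := Real.rpow_pos_of_pos hlog a
  have hnp : 0 < (n : ℝ) ^ (1 / (s : ℝ)) := Real.rpow_pos_of_pos hn0 _
  rw [Real.norm_of_nonneg hlp.le, Real.norm_of_nonneg hnp.le] at hn
  rw [Real.rpow_neg hn0.le, le_div_iff₀ (by positivity)]
  have h3 : (Real.log n) ^ a * ((n : ℝ) ^ (1 / (s : ℝ)))⁻¹ ≤ c / K := by
    rw [← div_eq_mul_inv, div_le_iff₀ hnp]
    exact hn
  calc K * ((Real.log n) ^ a * ((n : ℝ) ^ (1 / (s : ℝ)))⁻¹) ≤ K * (c / K) :=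
        mul_le_mul_of_nonneg_left h3 hK.le
    _ = c := by field_simp

theorem main :
    ¬ (∃ s : ℕ, 2 ≤ s ∧ ∃ a : ℝ, 0 < a ∧
      ∀ p : ℕ → ℝ, (∀ n, 0 < p n ∧ p n ≤ 1) →
        Tendsto (fun n : ℕ => p n / ((Real.log n) ^ a * (n : ℝ) ^ (-(1 / (s : ℝ))))) atTop atTop →
        ∀ G : ∀ n : ℕ, SimpleGraph (Fin n),
          Tendsto (fun n : ℕ =>
            (Set.ncard {f : Fin 2 → Fin n | Function.Injective f ∧
                ∀ i j, (⊤ : SimpleGraph (Fin 2)).Adj i j → (G n).Adj (f i) (f j)} : ℝ) /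
              ((n.descFactorial 2 : ℝ) * p n ^ 1)) atTop (𝓝 1) →
          Tendsto (fun n : ℕ =>
            (Set.ncard {f : Fin 4 → Fin n | Function.Injective f ∧
                ∀ i j, (SimpleGraph.cycleGraph 4).Adj i j → (G n).Adj (f i) (f j)} : ℝ) /
              ((n.descFactorial 4 : ℝ) * p n ^ 4)) atTop (𝓝 1) →
          (∀ t : ℕ, 1 ≤ t → ∃ C : ℝ, ∀ n : ℕ,
            (Set.ncard {f : Fin s ⊕ Fin t → Fin n | Function.Injective f ∧
                ∀ i j, (completeBipartiteGraph (Fin s) (Fin t)).Adj i j → (G n).Adj (f i) (f j)} : ℝ) /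
              ((n.descFactorial (s + t) : ℝ) * p n ^ (s * t)) ≤ C) →
          Tendsto (fun n : ℕ =>
            (Set.ncard {f : Fin 3 → Fin n | Function.Injective f ∧
                ∀ i j, (SimpleGraph.cycleGraph 3).Adj i j → (G n).Adj (f i) (f j)} : ℝ) /
              ((n.descFactorial 3 : ℝ) * p n ^ 3)) atTop (𝓝 1)) := by
  rintro ⟨s, hs, a, ha, H⟩
  -- the events
  let A : ℕ → ℕ → Prop := fun k n =>
    |(emb (⊤ : SimpleGraph (Fin 2)).Adj (Gr (k + 2) (by omega) n).Adj : ℝ) /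
      ((n.descFactorial 2 : ℝ) * q (k + 2) ^ 1) - 1| < 1 / ((k : ℝ) + 1) ∧
    |(emb (SimpleGraph.cycleGraph 4).Adj (Gr (k + 2) (by omega) n).Adj : ℝ) /
      ((n.descFactorial 4 : ℝ) * q (k + 2) ^ 4) -
        (1 + 1 / (((k + 2 : ℕ) : ℝ)) ^ 3) ^ ((k + 2) ^ 2)| < 1 / ((k : ℝ) + 1) ∧
    (emb (SimpleGraph.cycleGraph 3).Adj (Gr (k + 2) (by omega) n).Adj : ℝ) /
      ((n.descFactorial 3 : ℝ) * q (k + 2) ^ 3) < 1 / 2 ∧
    (∀ t ∈ Finset.range (k + 1), s ≤ k →
      (emb (completeBipartiteGraph (Fin s) (Fin t)).Adj (Gr (k + 2) (by omega) n).Adj : ℝ) /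
      ((n.descFactorial (s + t) : ℝ) * q (k + 2) ^ (s * t)) < B s t + 1) ∧
    ((k : ℝ) + 1) ≤ q (k + 2) / ((Real.log n) ^ a * (n : ℝ) ^ (-(1 / (s : ℝ))))
  have hA : ∀ k, ∀ᶠ n in atTop, A k n := by
    intro k
    have hkpos : (0 : ℝ) < 1 / ((k : ℝ) + 1) := by positivity
    have e2 := emb_lim (⊤ : SimpleGraph (Fin 2)).Adj (k + 2) (by omega) (q (k + 2) ^ 1)
    rw [Fintype.card_fin, L2 (k + 2) (by omega) _ (by intro i j; simp)] at e2
    have e4 := emb_lim (SimpleGraph.cycleGraph 4).Adj (k + 2) (by omega) (q (k + 2) ^ 4)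
    rw [Fintype.card_fin, L4 (k + 2) (by omega)] at e4
    have e3 := emb_lim (SimpleGraph.cycleGraph 3).Adj (k + 2) (by omega) (q (k + 2) ^ 3)
    rw [Fintype.card_fin] at e3
    have l3 := L3 (k + 2) (by omega) (SimpleGraph.cycleGraph 3).Adj
      (by decide)
    have hexp : Real.exp (-1) < 1 / 2 := by
      rw [Real.exp_neg, ← one_div]
      apply one_div_lt_one_div_of_lt (by norm_num)
      have := Real.exp_one_gt_d9
      linarith
    refine (?_ : ∀ᶠ n : ℕ in atTop, _).and ((?_ : ∀ᶠ n : ℕ in atTop, _).and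
      ((?_ : ∀ᶠ n : ℕ in atTop, _).and ((?_ : ∀ᶠ n : ℕ in atTop, _).and
      (?_ : ∀ᶠ n : ℕ in atTop, _))))
    · have := (Metric.tendsto_nhds.1 e2) _ hkpos
      filter_upwards [this] with n hn
      rw [Real.dist_eq] at hn
      exact hn
    · have := (Metric.tendsto_nhds.1 e4) _ hkpos
      filter_upwards [this] with n hn
      rw [Real.dist_eq] at hn
      exact hn
    · exact e3.eventually (gt_mem_nhds (lt_of_le_of_lt l3 hexp))
    · rw [Filter.eventually_all_finset]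
      intro t _
      by_cases hsk : s ≤ k
      · have et := emb_lim (completeBipartiteGraph (Fin s) (Fin t)).Adj (k + 2) (by omega)
          (q (k + 2) ^ (s * t))
        rw [Fintype.card_sum, Fintype.card_fin, Fintype.card_fin] at et
        have lt := Lst s t (k + 2) (by omega) (by omega) (by omega)
        have := et.eventually (gt_mem_nhds (lt_of_le_of_lt lt (lt_add_one _)))
        filter_upwards [this] with n hn _
        exact hn
      · filter_upwards with n h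
        exact absurd h hsk
    · exact growth s hs a _ (q_pos _ (by omega)) _ (by positivity)
  obtain ⟨κ, hκ, hκA⟩ := exists_diag A hA
  have hinv : Tendsto (fun n => 1 / ((κ n : ℝ) + 1)) atTop (𝓝 0) :=
    (tendsto_one_div_add_atTop_nhds_zero_nat (𝕜 := ℝ)).comp hκ
  have H1 := H (fun n => q (κ n + 2)) (fun n => ⟨q_pos _ (by omega), q_le _⟩) ?_
    (fun n => Gr (κ n + 2) (by omega) n) ?_ ?_ ?_
  · -- contradiction
    have h3 : ∀ᶠ n in atTop, (1 / 2 : ℝ) < (emb (SimpleGraph.cycleGraph 3).Adj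
        (Gr (κ n + 2) (by omega) n).Adj : ℝ) /
        ((n.descFactorial 3 : ℝ) * q (κ n + 2) ^ 3) :=
      H1.eventually (lt_mem_nhds (by norm_num))
    obtain ⟨n, hn1, hn2⟩ := (h3.and hκA).exists
    exact absurd hn1 (not_lt.2 hn2.2.2.1.le)
  · have h5 : Tendsto (fun n => (κ n : ℝ) + 1) atTop atTop :=
      tendsto_atTop_add_const_right _ _ (tendsto_natCast_atTop_atTop.comp hκ)
    refine tendsto_atTop_mono' atTop ?_ h5
    filter_upwards [hκA] with n hn
    exact hn.2.2.2.2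
  · rw [tendsto_iff_dist_tendsto_zero]
    refine squeeze_zero' (Eventually.of_forall fun n => dist_nonneg) ?_ hinv
    filter_upwards [hκA] with n hn
    rw [Real.dist_eq]
    exact hn.1.le
  · have hL : Tendsto (fun n => (1 + 1 / (((κ n + 2 : ℕ) : ℝ)) ^ 3) ^ ((κ n + 2) ^ 2)) atTop
        (𝓝 1) := L4_lim.comp ((tendsto_add_atTop_nat 2).comp hκ)
    have hd : Tendsto (fun n => (emb (SimpleGraph.cycleGraph 4).Adj
        (Gr (κ n + 2) (by omega) n).Adj : ℝ) /
      ((n.descFactorial 4 : ℝ) * q (κ n + 2) ^ 4) -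
        (1 + 1 / (((κ n + 2 : ℕ) : ℝ)) ^ 3) ^ ((κ n + 2) ^ 2)) atTop (𝓝 0) := by
      rw [tendsto_zero_iff_abs_tendsto_zero]
      refine squeeze_zero' (Eventually.of_forall fun n => abs_nonneg _) ?_ hinv
      filter_upwards [hκA] with n hn
      exact hn.2.1.le
    have := hd.add hL
    rw [zero_add] at this
    refine this.congr ?_
    intro n
    rw [sub_add_cancel]
    rfl
  · intro t _
    set u : ℕ → ℝ := fun n => (emb (completeBipartiteGraph (Fin s) (Fin t)).Adj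
      (Gr (κ n + 2) (by omega) n).Adj : ℝ) /
      ((n.descFactorial (s + t) : ℝ) * q (κ n + 2) ^ (s * t)) with hu
    have hev : ∀ᶠ n in atTop, u n ≤ B s t + 1 := by
      filter_upwards [hκA, hκ.eventually_ge_atTop (max s t)] with n hn hn2
      exact (hn.2.2.2.1 t (Finset.mem_range.2 (by have := le_max_right s t; omega))
        ((le_max_left s t).trans hn2)).le
    have hb : BddAbove (Set.range u) := by
      apply Filter.IsBoundedUnder.bddAbove_range
      exact ⟨B s t + 1, by simpa using hev⟩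
    obtain ⟨C, hC⟩ := hb
    exact ⟨C, fun n => hC ⟨n, rfl⟩⟩

end Run7.h269.Tri
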